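import Mathlib

set_option autoImplicit false

namespace Pool.Agent.Results.MP_417677_al.Counterexample

open CoxeterMatrix CoxeterSystem DihedralGroup
open scoped commutatorElement

abbrev W := H₃.Group

noncomputable abbrev cs : CoxeterSystem H₃ W := H₃.toCoxeterSystem

def rew (w : List (Fin 3)) (m : ℕ × Fin 3 × Fin 3) : List (Fin 3) :=
  if w = w.take m.1 ++ braidWord H₃ m.2.1 m.2.2 ++ w.drop (m.1 + H₃ m.2.1 m.2.2) then
    w.take m.1 ++ braidWord H₃ m.2.2 m.2.1 ++ w.drop (m.1 + H₃ m.2.1 m.2.2) else w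

theorem rew_eq (w : List (Fin 3)) (m : ℕ × Fin 3 × Fin 3) :
    cs.wordProd (rew w m) = cs.wordProd w := by
  unfold rew
  split_ifs with h
  · conv_rhs => rw [h]
    simp only [wordProd_append, cs.wordProd_braidWord_eq m.2.1 m.2.2]
  · rfl

theorem fold_eq (l : List (ℕ × Fin 3 × Fin 3)) (w : List (Fin 3)) :
    cs.wordProd (l.foldl rew w) = cs.wordProd w := by
  induction l generalizing w with
  | nil => rfl
  | cons m l ih => rw [List.foldl_cons, ih, rew_eq]

def A : List (Fin 3) := [0, 1, 2, 0, 1, 2, 0, 1, 2, 0, 1, 2, 0, 1, 2]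

noncomputable def z : W := cs.wordProd A

theorem z_eq (l : List (ℕ × Fin 3 × Fin 3)) (w : List (Fin 3)) (h : l.foldl rew A = w) :
    z = cs.wordProd w := by rw [← h, fold_eq]; rfl

theorem zz : z * z = 1 := by
  have := z_eq [(2, 2, 0), (0, 1, 0), (8, 2, 0), (6, 1, 0), (2, 2, 1), (1, 0, 2), (6, 2, 0),
    (7, 1, 2), (5, 0, 1), (4, 2, 0), (2, 1, 0), (7, 0, 2), (11, 0, 1), (10, 2, 0), (8, 1, 0),
    (4, 2, 1), (3, 0, 2), (8, 2, 0), (13, 0, 2), (9, 1, 2), (7, 0, 1), (6, 2, 0), (4, 1, 0),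
    (0, 2, 1), (4, 2, 0), (9, 0, 2), (5, 1, 2), (3, 0, 1), (2, 2, 0), (9, 0, 1), (8, 2, 0)]
    A.reverse (by decide +kernel)
  rw [wordProd_reverse] at this
  exact mul_eq_one_iff_eq_inv.2 this

theorem comm_aux (s : Fin 3) (u : List (Fin 3)) (l l' : List (ℕ × Fin 3 × Fin 3))
    (h : l.foldl rew A = s :: u) (h' : l'.foldl rew A = u ++ [s]) :
    cs.simple s * z = z * cs.simple s := by
  conv_lhs => rw [z_eq l _ h]
  rw [z_eq l' _ h', wordProd_cons, wordProd_append, wordProd_singleton,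
    simple_mul_simple_cancel_left, simple_mul_simple_cancel_right]

theorem comm_s (s : Fin 3) : cs.simple s * z = z * cs.simple s := by
  fin_cases s
  · exact comm_aux 0 [1, 2, 0, 1, 2, 0, 1, 2, 0, 1, 2, 0, 1, 2] [] [(2, 2, 0), (0, 1, 0),
      (8, 2, 0), (6, 1, 0), (2, 2, 1), (1, 0, 2), (6, 2, 0), (7, 1, 2), (5, 0, 1), (7, 0, 2),
      (11, 0, 1), (13, 0, 2)] (by decide +kernel) (by decide +kernel)
  · exact comm_aux 1 [0, 1, 2, 1, 2, 0, 1, 2, 0, 1, 2, 0, 1, 2] [(2, 2, 0), (0, 1, 0)]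
      [(5, 2, 0), (3, 1, 0), (11, 2, 0), (9, 1, 0), (5, 2, 1), (4, 0, 2), (9, 2, 0), (10, 1, 2),
      (8, 0, 1), (10, 0, 2)] (by decide +kernel) (by decide +kernel)
  · exact comm_aux 2 [0, 1, 2, 1, 2, 0, 1, 2, 1, 0, 2, 1, 2, 1] [(5, 2, 0), (3, 1, 0),
      (11, 2, 0), (9, 1, 0), (5, 2, 1), (4, 0, 2), (9, 2, 0), (10, 1, 2), (8, 0, 1), (7, 2, 0),
      (5, 1, 0), (1, 2, 1), (0, 0, 2)] [(5, 2, 0), (3, 1, 0), (11, 2, 0), (9, 1, 0), (5, 2, 1),
      (4, 0, 2), (9, 2, 0)] (by decide +kernel) (by decide +kernel)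

theorem comm (w : W) : w * z = z * w := by
  induction w using cs.simple_induction with
  | simple i => exact comm_s i
  | one => simp
  | mul a b ha hb => rw [mul_assoc, hb, ← mul_assoc, ha, mul_assoc]

theorem zmul (a b : W) : a * z * (b * z) = a * b := by
  rw [mul_assoc, ← mul_assoc z, ← comm, mul_assoc b, zz, mul_one]

abbrev D := DihedralGroup 4

noncomputable def φ : W →* W × D := cs.lift ⟨fun s => (cs.simple s * z, r 2), fun i j => by
  have : (r 2 * r 2 : D) = 1 := by decide
  ext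
  · simp only [Prod.mk_mul_mk, zmul, Prod.pow_mk, simple_mul_simple_pow, Prod.fst_one]
  · simp only [Prod.mk_mul_mk, this, Prod.pow_mk, one_pow, Prod.snd_one]⟩

theorem φ_s (s : Fin 3) : φ (cs.simple s) = (cs.simple s * z, r 2) := cs.lift_apply_simple _ s

theorem φ_cases (w : W) : φ w = (w, 1) ∨ φ w = (w * z, r 2) := by
  induction w using cs.simple_induction with
  | simple i => exact Or.inr (φ_s i)
  | one => left; simp; rfl
  | mul a b ha hb =>
    have : (r 2 * r 2 : D) = 1 := by decide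
    rw [map_mul]
    rcases ha with ha | ha <;> rcases hb with hb | hb <;> rw [ha, hb, Prod.mk_mul_mk]
    · left; simp
    · right; simp [mul_assoc]
    · right; rw [mul_assoc, ← comm, mul_assoc, mul_one]
    · left; rw [zmul, this]

theorem φ_inj : Function.Injective φ := by
  rw [injective_iff_map_eq_one]
  intro w hw
  rcases φ_cases w with h | h <;> rw [h] at hw
  · exact congrArg Prod.fst hw
  · exact absurd (show (r 2 : D) = 1 from congrArg Prod.snd hw) (by decide)

theorem φ_z : φ z = (1, r 2) := by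
  have : (φ z).2 = r 2 := by
    simp only [z, A, wordProd_cons, wordProd_nil, map_mul, φ_s, Prod.snd_mul, map_one,
      Prod.snd_one]
    decide
  rcases φ_cases z with h | h
  · rw [h] at this; exact absurd (show (1 : D) = r 2 from this) (by decide)
  · rw [h, zz]

theorem sz_ab (B : Type) [CommGroup B] (f : W →* B) (s : Fin 3) : f (cs.simple s * z) = 1 := by
  have sq : ∀ i, f (cs.simple i) ^ 2 = 1 := fun i => by rw [← map_pow, simple_sq, map_one]
  have h01 : (f (cs.simple 0) * f (cs.simple 1)) ^ 3 = 1 := by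
    rw [← map_mul, ← map_pow]
    exact (congrArg f (cs.simple_mul_simple_pow 0 1)).trans f.map_one
  have h12 : (f (cs.simple 1) * f (cs.simple 2)) ^ 5 = 1 := by
    rw [← map_mul, ← map_pow]
    exact (congrArg f (cs.simple_mul_simple_pow 1 2)).trans f.map_one
  have key : ∀ a b : B, a ^ 2 = 1 → b ^ 2 = 1 → ∀ k, (a * b) ^ (2 * k + 1) = 1 → b = a := by
    intro a b ha hb k h
    rw [pow_succ, pow_mul, mul_pow, ha, hb, one_mul, one_pow, one_mul] at h
    rw [pow_two] at ha
    exact mul_left_cancel (h.trans ha.symm)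
  have e1 := key _ _ (sq 0) (sq 1) 1 h01
  have e2 := key _ _ (sq 1) (sq 2) 2 h12
  have es : f (cs.simple s) = f (cs.simple 0) := by
    fin_cases s
    exacts [rfl, e1, e2.trans e1]
  have : f (cs.simple s * z) = (f (cs.simple 0) ^ 2) ^ 8 := by
    simp only [z, A, wordProd_cons, wordProd_nil, map_mul, map_one, es, e2, e1, ← pow_mul]
    simp only [pow_succ, pow_zero, mul_assoc, one_mul, mul_one]
  rw [this, sq, one_pow]

theorem range_eq : φ.range = commutator (W × D) := by
  apply le_antisymm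
  · rintro _ ⟨w, rfl⟩
    induction w using cs.simple_induction with
    | one => simp
    | mul a b ha hb => rw [map_mul]; exact mul_mem ha hb
    | simple i =>
      have h1 : ((cs.simple i * z, 1) : W × D) ∈ commutator (W × D) := by
        rw [← Abelianization.ker_of, MonoidHom.mem_ker]
        exact sz_ab _ (Abelianization.of.comp (MonoidHom.inl W D)) i
      have h2 : ((1, r 2) : W × D) ∈ commutator (W × D) := by
        have : ((1, r 2) : W × D) = ⁅((1, r 1) : W × D), ((1, sr 0) : W × D)⁆ := by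
          rw [commutatorElement_def]
          ext
          · simp
          · decide
        rw [this]
        exact Subgroup.commutator_mem_commutator (Subgroup.mem_top _) (Subgroup.mem_top _)
      have h3 := mul_mem h1 h2
      rw [Prod.mk_mul_mk, mul_one, one_mul] at h3
      rwa [φ_s]
  · rw [commutator_def, Subgroup.commutator_le]
    rintro ⟨a, d⟩ - ⟨b, e⟩ -
    have h1 : φ ⁅a, b⁆ = (⁅a, b⁆, 1) := by
      rcases φ_cases ⁅a, b⁆ with h | h
      · exact h
      · exfalso
        have h2 := congrArg Prod.snd h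
        rw [map_commutatorElement, commutatorElement_def] at h2
        rcases φ_cases a with ha | ha <;> rcases φ_cases b with hb | hb <;> rw [ha, hb] at h2 <;>
          simp only [Prod.snd_mul, Prod.snd_inv] at h2 <;> exact absurd h2 (by decide)
    have h2 : ∀ d e : D, ⁅d, e⁆ = 1 ∨ ⁅d, e⁆ = r 2 := by
      simp only [commutatorElement_def]; decide
    have h3 : (⁅(a, d), (b, e)⁆ : W × D) = (⁅a, b⁆, ⁅d, e⁆) := rfl
    rw [h3]
    rcases h2 d e with h | h <;> rw [h]
    · exact ⟨_, h1⟩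
    · exact ⟨⁅a, b⁆ * z, by rw [map_mul, h1, φ_z]; simp⟩

def pr : Fin 3 → Equiv.Perm (Fin 5) :=
  ![Equiv.swap 1 2 * Equiv.swap 3 4, Equiv.swap 0 1 * Equiv.swap 3 4,
    Equiv.swap 1 3 * Equiv.swap 2 4]

theorem pr_lift : H₃.IsLiftable pr := by
  unfold CoxeterMatrix.IsLiftable
  decide +kernel

theorem result : ∃ (B : Type) (M : CoxeterMatrix B),
    (SimpleGraph.fromRel fun s t => 3 ≤ M s t ∨ M s t = 0).Connected ∧
    ¬ Nonempty (M.Group ≃* Multiplicative (ZMod 2)) ∧
    ∃ (H : Type) (_ : Group H), Nonempty (commutator H ≃* M.Group) := by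
  refine ⟨Fin 3, H₃, ?_, ?_, W × D, inferInstance, ⟨?_⟩⟩
  · have h01 : (SimpleGraph.fromRel fun s t => 3 ≤ H₃ s t ∨ H₃ s t = 0).Adj 0 1 := by
      rw [SimpleGraph.fromRel_adj]; decide
    have h12 : (SimpleGraph.fromRel fun s t => 3 ≤ H₃ s t ∨ H₃ s t = 0).Adj 1 2 := by
      rw [SimpleGraph.fromRel_adj]; decide
    have key : ∀ a, (SimpleGraph.fromRel fun s t => 3 ≤ H₃ s t ∨ H₃ s t = 0).Reachable 1 a := by
      intro a
      fin_cases a
      exacts [h01.symm.reachable, .rfl, h12.reachable]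
    exact ⟨fun a b => (key a).symm.trans (key b)⟩
  · rintro ⟨e⟩
    have h : cs.simple 0 * cs.simple 1 = cs.simple 1 * cs.simple 0 :=
      e.injective (by rw [map_mul, map_mul, mul_comm])
    have := congrArg (cs.lift ⟨pr, pr_lift⟩) h
    rw [map_mul, map_mul, lift_apply_simple, lift_apply_simple] at this
    exact absurd this (by decide)
  · exact (MulEquiv.subgroupCongr range_eq.symm).trans (MonoidHom.ofInjective φ_inj).symm

end Pool.Agent.Results.MP_417677_al.Counterexample
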